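import Pool.Agent.U498.TA.Asm

/-!
# Job TB1: to first order every time dependent field `w e_i` is generated by `TypeB`
-/

set_option autoImplicit false

open Set Filter Topology Metric Function
open scoped ContDiff NNReal

namespace Pool.Agent.U171.TA

open Pool.Agent.U498.TA

/-- generated to first order -/
def Good (i : Fin 3) (w : ℝ × E 3 → ℝ) : Prop :=
  ∀ R η : ℝ, 0 < η → ∃ t₀ > 0, ∀ t, 0 ≤ t → t ≤ t₀ → ∀ s, 0 ≤ s → s ≤ 1 →
    ∃ g ∈ Subgroup.closure TypeB, ∀ x, ‖x‖ ≤ R →
      ‖g x - (x + EuclideanSpace.single i (t * w (s, x)))‖ ≤ η * t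

theorem norm_single' (i : Fin 3) (a : ℝ) : ‖(EuclideanSpace.single i a : E 3)‖ = |a| := by
  rw [PiLp.norm_single, Real.norm_eq_abs]

theorem single_add' (i : Fin 3) (a b : ℝ) :
    (EuclideanSpace.single i (a + b) : E 3) = EuclideanSpace.single i a + EuclideanSpace.single i b := by
  ext l
  by_cases h : l = i
  · subst h; simp
  · simp [h]

theorem single_sub' (i : Fin 3) (a b : ℝ) :
    (EuclideanSpace.single i (a - b) : E 3) = EuclideanSpace.single i a - EuclideanSpace.single i b := by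
  ext l
  by_cases h : l = i
  · subst h; simp
  · simp [h]

theorem good_add {i : Fin 3} {w1 w2 : ℝ × E 3 → ℝ} (h1 : Good i w1) (c1 : Continuous w1)
    (h2 : Good i w2) (c2 : Continuous w2) : Good i (fun p => w1 p + w2 p) := by
  intro R η hη
  obtain ⟨C, hC⟩ := ((isCompact_Icc (a := (0:ℝ)) (b := 1)).prod
    (isCompact_closedBall (0 : E 3) R)).exists_bound_of_continuousOn (f := w1) c1.continuousOn
  have huc : UniformContinuousOn w2 (Icc (0:ℝ) 1 ×ˢ closedBall (0 : E 3) (R + 1)) :=
    (isCompact_Icc.prod (isCompact_closedBall _ _)).uniformContinuousOn_of_continuous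
      c2.continuousOn
  obtain ⟨δ, hδ, hu⟩ := Metric.uniformContinuousOn_iff.1 huc (η / 3) (by positivity)
  obtain ⟨t1, ht1, H1⟩ := h1 R (η / 3) (by positivity)
  obtain ⟨t2, ht2, H2⟩ := h2 (R + 1) (η / 3) (by positivity)
  have hD : 0 < |C| + η / 3 + 1 := by positivity
  refine ⟨min (min t1 t2) (min (δ / 2) 1 / (|C| + η / 3 + 1)), by positivity, ?_⟩
  intro t ht0 ht s hs0 hs1
  have htt1 : t ≤ t1 := ht.trans ((min_le_left _ _).trans (min_le_left _ _))
  have htt2 : t ≤ t2 := ht.trans ((min_le_left _ _).trans (min_le_right _ _))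
  have htd : t ≤ min (δ / 2) 1 / (|C| + η / 3 + 1) := ht.trans (min_le_right _ _)
  rw [le_div_iff₀ hD] at htd
  obtain ⟨g1, hg1, K1⟩ := H1 t ht0 htt1 s hs0 hs1
  obtain ⟨g2, hg2, K2⟩ := H2 t ht0 htt2 s hs0 hs1
  refine ⟨g2 * g1, mul_mem hg2 hg1, fun x hx => ?_⟩
  show ‖g2 (g1 x) - _‖ ≤ _
  have e1 := K1 x hx
  have hw : |w1 (s, x)| ≤ |C| := by
    have := hC (s, x) ⟨⟨hs0, hs1⟩, by simpa using hx⟩
    rw [Real.norm_eq_abs] at this
    exact this.trans (le_abs_self C)
  have hmove : ‖g1 x - x‖ ≤ min (δ / 2) 1 := by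
    calc ‖g1 x - x‖ = ‖(g1 x - (x + EuclideanSpace.single i (t * w1 (s, x)))) +
          EuclideanSpace.single i (t * w1 (s, x))‖ := by congr 1; abel
      _ ≤ η / 3 * t + t * |C| := by
          refine (norm_add_le _ _).trans (add_le_add e1 ?_)
          rw [norm_single', abs_mul, abs_of_nonneg ht0]
          exact mul_le_mul_of_nonneg_left hw ht0
      _ ≤ t * (|C| + η / 3 + 1) := by nlinarith
      _ ≤ min (δ / 2) 1 := htd
  have hball : ‖g1 x‖ ≤ R + 1 := by
    calc ‖g1 x‖ = ‖x + (g1 x - x)‖ := by congr 1; abel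
      _ ≤ ‖x‖ + ‖g1 x - x‖ := norm_add_le _ _
      _ ≤ R + 1 := add_le_add hx (hmove.trans (min_le_right _ _))
  have e2 := K2 (g1 x) hball
  have e3 : |w2 (s, g1 x) - w2 (s, x)| < η / 3 := by
    have := hu (s, g1 x) ⟨⟨hs0, hs1⟩, by simpa using hball⟩ (s, x)
      ⟨⟨hs0, hs1⟩, by simpa using hx.trans (by linarith)⟩ ?_
    · rwa [Real.dist_eq] at this
    · rw [Prod.dist_eq, dist_self, dist_eq_norm]
      have : ‖g1 x - x‖ < δ := lt_of_le_of_lt (hmove.trans (min_le_left _ _)) (by linarith)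
      simpa using this
  have key : g2 (g1 x) - (x + EuclideanSpace.single i (t * (w1 (s, x) + w2 (s, x)))) =
      (g2 (g1 x) - (g1 x + EuclideanSpace.single i (t * w2 (s, g1 x)))) +
      (g1 x - (x + EuclideanSpace.single i (t * w1 (s, x)))) +
      EuclideanSpace.single i (t * (w2 (s, g1 x) - w2 (s, x))) := by
    rw [mul_add, mul_sub, single_add', single_sub']
    abel
  rw [key]
  calc _ ≤ ‖g2 (g1 x) - (g1 x + EuclideanSpace.single i (t * w2 (s, g1 x)))‖ +
      ‖g1 x - (x + EuclideanSpace.single i (t * w1 (s, x)))‖ +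
      ‖(EuclideanSpace.single i (t * (w2 (s, g1 x) - w2 (s, x))) : E 3)‖ := norm_add₃_le
    _ ≤ η / 3 * t + η / 3 * t + t * (η / 3) := by
        refine add_le_add (add_le_add e2 e1) ?_
        rw [norm_single', abs_mul, abs_of_nonneg ht0]
        exact mul_le_mul_of_nonneg_left e3.le ht0
    _ = η * t := by ring

theorem good_of_near {i : Fin 3} {w : ℝ × E 3 → ℝ}
    (h : ∀ R η : ℝ, 0 < η → ∃ w' : ℝ × E 3 → ℝ, Good i w' ∧
      ∀ s x, 0 ≤ s → s ≤ 1 → ‖x‖ ≤ R → |w' (s, x) - w (s, x)| ≤ η) : Good i w := by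
  intro R η hη
  obtain ⟨w', hw', hn⟩ := h R (η / 2) (by positivity)
  obtain ⟨t₀, ht₀, H⟩ := hw' R (η / 2) (by positivity)
  refine ⟨t₀, ht₀, fun t ht0 ht s hs0 hs1 => ?_⟩
  obtain ⟨g, hg, K⟩ := H t ht0 ht s hs0 hs1
  refine ⟨g, hg, fun x hx => ?_⟩
  have key : g x - (x + EuclideanSpace.single i (t * w (s, x))) =
      (g x - (x + EuclideanSpace.single i (t * w' (s, x)))) +
      EuclideanSpace.single i (t * (w' (s, x) - w (s, x))) := by
    rw [mul_sub, single_sub']
    abel
  rw [key]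
  calc _ ≤ ‖g x - (x + EuclideanSpace.single i (t * w' (s, x)))‖ +
      ‖(EuclideanSpace.single i (t * (w' (s, x) - w (s, x))) : E 3)‖ := norm_add_le _ _
    _ ≤ η / 2 * t + t * (η / 2) := by
        refine add_le_add (K x hx) ?_
        rw [norm_single', abs_mul, abs_of_nonneg ht0]
        exact mul_le_mul_of_nonneg_left (hn s x hs0 hs1 hx) ht0
    _ = η * t := by ring

/-- the shear `x ↦ x + c x_k e_j` -/
noncomputable def shear (j k : Fin 3) (hjk : j ≠ k) (c : ℝ) : E 3 ≃ₜ E 3 where
  toFun x := x + EuclideanSpace.single j (c * x k)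
  invFun x := x - EuclideanSpace.single j (c * x k)
  left_inv x := by simp [hjk.symm]
  right_inv x := by simp [hjk.symm]
  continuous_toFun := by
    refine continuous_id.add ?_
    have : (fun x : E 3 => (EuclideanSpace.single j (c * x k) : E 3)) =
        fun x : E 3 => (c * x k) • (EuclideanSpace.single j 1 : E 3) := by
      ext x l
      by_cases h : l = j
      · subst h; simp
      · simp [h]
    rw [this]
    fun_prop
  continuous_invFun := by
    refine continuous_id.sub ?_
    have : (fun x : E 3 => (EuclideanSpace.single j (c * x k) : E 3)) =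
        fun x : E 3 => (c * x k) • (EuclideanSpace.single j 1 : E 3) := by
      ext x l
      by_cases h : l = j
      · subst h; simp
      · simp [h]
    rw [this]
    fun_prop

theorem shear_apply {j k : Fin 3} (hjk : j ≠ k) (c : ℝ) (x : E 3) :
    shear j k hjk c x = x + EuclideanSpace.single j (c * x k) := rfl

theorem shear_mem {i j k : Fin 3} (hij : i ≠ j) (hik : i ≠ k) (hjk : j ≠ k) (c : ℝ) :
    shear j k hjk c ∈ Subgroup.closure TypeB := by
  refine two_var hjk hij.symm hik.symm (fun x l hl => ?_) (fun x y hx hy => ?_)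
  · rw [shear_apply]; simp [hl]
  · rw [shear_apply, shear_apply]; simp [hx, hy]

/-- a small perturbation of the identity in one coordinate is a homeomorphism -/
theorem exists_homeo (i : Fin 3) (v : E 3 → ℝ) (hv : ∀ x y, |v x - v y| ≤ 1 / 2 * ‖x - y‖) :
    ∃ g : E 3 ≃ₜ E 3, ∀ x, g x = x + EuclideanSpace.single i (v x) := by
  have hA : ApproximatesLinearOn (fun x : E 3 => x + EuclideanSpace.single i (v x))
      ((ContinuousLinearEquiv.refl ℝ (E 3) : E 3 ≃L[ℝ] E 3) : E 3 →L[ℝ] E 3) univ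
      (1 / 2 : ℝ≥0) := by
    intro x _ y _
    have : x + EuclideanSpace.single i (v x) - (y + EuclideanSpace.single i (v y)) -
        ((ContinuousLinearEquiv.refl ℝ (E 3) : E 3 ≃L[ℝ] E 3) : E 3 →L[ℝ] E 3) (x - y) =
        EuclideanSpace.single i (v x - v y) := by
      rw [single_sub']
      simp only [ContinuousLinearEquiv.coe_coe, ContinuousLinearEquiv.refl_apply]
      abel
    rw [this, norm_single']
    simpa using hv x y
  have hN : (1 / 2 : ℝ≥0) <
      ‖((ContinuousLinearEquiv.refl ℝ (E 3) : E 3 ≃L[ℝ] E 3).symm : E 3 →L[ℝ] E 3)‖₊⁻¹ := by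
    have : ‖((ContinuousLinearEquiv.refl ℝ (E 3) : E 3 ≃L[ℝ] E 3).symm : E 3 →L[ℝ] E 3)‖₊ = 1 := by
      have h0 : ((ContinuousLinearEquiv.refl ℝ (E 3) : E 3 ≃L[ℝ] E 3).symm : E 3 →L[ℝ] E 3) =
        ContinuousLinearMap.id ℝ (E 3) := rfl
      rw [h0]
      have := ContinuousLinearMap.norm_id (𝕜 := ℝ) (E := E 3)
      exact NNReal.eq this
    rw [this, inv_one]
    rw [← NNReal.coe_lt_coe]; norm_num
  exact ⟨hA.toHomeomorph _ (Or.inr hN), fun x => rfl⟩

theorem exp_lip {M a b : ℝ} (ha : a ≤ M) (hb : b ≤ M) :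
    |Real.exp a - Real.exp b| ≤ Real.exp M * |a - b| := by
  wlog hab : b ≤ a generalizing a b
  · rw [abs_sub_comm, abs_sub_comm a b]
    exact this hb ha (le_of_not_ge hab)
  rw [abs_of_nonneg (sub_nonneg.2 (Real.exp_le_exp.2 hab)), abs_of_nonneg (sub_nonneg.2 hab)]
  have h1 : Real.exp a - Real.exp b = Real.exp a * (1 - Real.exp (b - a)) := by
    rw [mul_sub, ← Real.exp_add]; ring_nf
  have h2 : 1 - Real.exp (b - a) ≤ a - b := by
    have := Real.add_one_le_exp (b - a)
    linarith
  rw [h1]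
  calc Real.exp a * (1 - Real.exp (b - a)) ≤ Real.exp a * (a - b) :=
        mul_le_mul_of_nonneg_left h2 (Real.exp_pos a).le
    _ ≤ Real.exp M * (a - b) :=
        mul_le_mul_of_nonneg_right (Real.exp_le_exp.2 ha) (sub_nonneg.2 hab)

/-- cut off -/
noncomputable def cl (r p : ℝ) : ℝ := max (-r) (min p r)

theorem cl_lip (r p q : ℝ) : |cl r p - cl r q| ≤ |p - q| := by
  unfold cl
  rw [max_comm (-r), max_comm (-r)]
  refine (abs_max_sub_max_le_abs _ _ _).trans ?_
  refine (abs_min_sub_min_le_max _ _ _ _).trans ?_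
  simp

theorem cl_abs {r : ℝ} (hr : 0 ≤ r) (p : ℝ) : |cl r p| ≤ r := by
  unfold cl
  rw [abs_le]
  exact ⟨le_max_left _ _, max_le (by linarith) (min_le_right _ _)⟩

theorem cl_eq {r p : ℝ} (h : |p| ≤ r) : cl r p = p := by
  unfold cl
  rw [abs_le] at h
  rw [min_eq_left h.2, max_eq_right h.1]

theorem good_ridge {i j k : Fin 3} (hij : i ≠ j) (hik : i ≠ k) (hjk : j ≠ k)
    (C σ α l c : ℝ) :
    Good i (fun p => C * Real.exp (σ * p.1 + α * p.2 i + l * (p.2 j + c * p.2 k))) := by
  intro R η hη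
  set r : ℝ := (1 + |c|) * |R| with hr
  have hr0 : 0 ≤ r := by positivity
  set M : ℝ := |σ| + |α| * r + |l| * r with hM
  set K : ℝ := |C| * Real.exp M * (|α| + |l|) with hK
  have hK0 : 0 ≤ K := by positivity
  refine ⟨1 / (4 * K + 4), by positivity, fun t ht0 ht s hs0 hs1 => ?_⟩
  have ht' : t * (4 * K + 4) ≤ 1 := by
    rwa [le_div_iff₀ (by positivity)] at ht
  -- the cut off function
  let b : ℝ → ℝ → ℝ := fun p q => C * Real.exp (σ * s + α * cl r p + l * cl r q)
  have hexp : ∀ p q : ℝ, σ * s + α * cl r p + l * cl r q ≤ M := by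
    intro p q
    have h1 : σ * s ≤ |σ| := by
      calc σ * s ≤ |σ * s| := le_abs_self _
        _ = |σ| * s := by rw [abs_mul, abs_of_nonneg hs0]
        _ ≤ |σ| * 1 := mul_le_mul_of_nonneg_left hs1 (abs_nonneg _)
        _ = |σ| := mul_one _
    have h2 : α * cl r p ≤ |α| * r := by
      calc α * cl r p ≤ |α * cl r p| := le_abs_self _
        _ = |α| * |cl r p| := abs_mul _ _
        _ ≤ |α| * r := mul_le_mul_of_nonneg_left (cl_abs hr0 p) (abs_nonneg _)
    have h3 : l * cl r q ≤ |l| * r := by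
      calc l * cl r q ≤ |l * cl r q| := le_abs_self _
        _ = |l| * |cl r q| := abs_mul _ _
        _ ≤ |l| * r := mul_le_mul_of_nonneg_left (cl_abs hr0 q) (abs_nonneg _)
    linarith
  have hbl : ∀ p q p' q', |b p q - b p' q'| ≤ |C| * Real.exp M * (|α| * |p - p'| + |l| * |q - q'|) := by
    intro p q p' q'
    have e : b p q - b p' q' = C * (Real.exp (σ * s + α * cl r p + l * cl r q) -
      Real.exp (σ * s + α * cl r p' + l * cl r q')) := by simp only [b]; ring
    rw [e, abs_mul, mul_assoc]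
    refine mul_le_mul_of_nonneg_left ((exp_lip (hexp p q) (hexp p' q')).trans ?_) (abs_nonneg _)
    refine mul_le_mul_of_nonneg_left ?_ (Real.exp_pos M).le
    have e2 : σ * s + α * cl r p + l * cl r q - (σ * s + α * cl r p' + l * cl r q') =
      α * (cl r p - cl r p') + l * (cl r q - cl r q') := by ring
    rw [e2]
    refine (abs_add_le _ _).trans ?_
    rw [abs_mul, abs_mul]
    exact add_le_add (mul_le_mul_of_nonneg_left (cl_lip _ _ _) (abs_nonneg _))
      (mul_le_mul_of_nonneg_left (cl_lip _ _ _) (abs_nonneg _))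
  obtain ⟨T, hT⟩ := exists_homeo i (fun x => t * b (x i) (x j)) (by
    intro x y
    have hx : ∀ m : Fin 3, |x m - y m| ≤ ‖x - y‖ := by
      intro m
      have := PiLp.norm_apply_le (x - y) m
      simpa using this
    have e : t * b (x i) (x j) - t * b (y i) (y j) = t * (b (x i) (x j) - b (y i) (y j)) := by ring
    show |t * b (x i) (x j) - t * b (y i) (y j)| ≤ _
    rw [e, abs_mul, abs_of_nonneg ht0]
    calc t * |b (x i) (x j) - b (y i) (y j)|
        ≤ t * (|C| * Real.exp M * (|α| * |x i - y i| + |l| * |x j - y j|)) :=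
          mul_le_mul_of_nonneg_left (hbl _ _ _ _) ht0
      _ ≤ t * (|C| * Real.exp M * (|α| * ‖x - y‖ + |l| * ‖x - y‖)) := by
          have := hx i
          have := hx j
          gcongr
      _ = t * K * ‖x - y‖ := by rw [hK]; ring
      _ ≤ 1 / 2 * ‖x - y‖ := by
          refine mul_le_mul_of_nonneg_right ?_ (norm_nonneg _)
          nlinarith)
  have hTm : T ∈ Subgroup.closure TypeB := by
    refine two_var hij hik hjk (fun x m hm => ?_) (fun x y hx hy => ?_)
    · rw [hT]; simp [hm]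
    · rw [hT, hT]; simp [hx, hy]
  have hS := shear_mem hij hik hjk c
  refine ⟨(shear j k hjk c)⁻¹ * T * shear j k hjk c,
    mul_mem (mul_mem (inv_mem hS) hTm) hS, fun x hx => ?_⟩
  have hxm : ∀ m : Fin 3, |x m| ≤ |R| := by
    intro m
    have := PiLp.norm_apply_le x m
    rw [Real.norm_eq_abs] at this
    exact this.trans (hx.trans (le_abs_self R))
  have hval : ((shear j k hjk c)⁻¹ * T * shear j k hjk c) x =
      x + EuclideanSpace.single i (t * b (x i) (x j + c * x k)) := by
    show (shear j k hjk c).symm (T (shear j k hjk c x)) = _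
    rw [Homeomorph.symm_apply_eq, shear_apply, shear_apply, hT]
    ext m
    rcases eq_or_ne m i with rfl | hmi
    · simp [hij, hik.symm]
    · rcases eq_or_ne m j with rfl | hmj
      · simp [hij, hij.symm, hik.symm]
      · simp [hmi, hmj]
  have hb : b (x i) (x j + c * x k) =
      C * Real.exp (σ * s + α * x i + l * (x j + c * x k)) := by
    have h1 : cl r (x i) = x i := cl_eq ((hxm i).trans (by
      rw [hr]; nlinarith [abs_nonneg c, abs_nonneg R, mul_nonneg (abs_nonneg c) (abs_nonneg R)]))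
    have h2 : cl r (x j + c * x k) = x j + c * x k := cl_eq (by
      calc |x j + c * x k| ≤ |x j| + |c * x k| := abs_add_le _ _
        _ = |x j| + |c| * |x k| := by rw [abs_mul]
        _ ≤ |R| + |c| * |R| := add_le_add (hxm j) (mul_le_mul_of_nonneg_left (hxm k) (abs_nonneg _))
        _ = r := by rw [hr]; ring)
    simp only [b]
    rw [h1, h2]
  rw [hval, hb]
  simp only [sub_self, norm_zero]
  positivity

/-- the exponentials -/
def Ex (i j k : Fin 3) (R : ℝ) :
    Submonoid C(↥(Icc (0:ℝ) 1 ×ˢ closedBall (0 : E 3) R), ℝ) where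
  carrier := {f | f = 1 ∨ ∃ σ α l m : ℝ, 0 < l ∧ ∀ p, f p =
    Real.exp (σ * p.1.1 + α * p.1.2 i + l * p.1.2 j + m * p.1.2 k)}
  mul_mem' := by
    rintro f g (rfl | ⟨σ, α, l, m, hl, hf⟩) (rfl | ⟨σ', α', l', m', hl', hg⟩)
    · left; simp
    · right; exact ⟨σ', α', l', m', hl', fun p => by simp [hg]⟩
    · right; exact ⟨σ, α, l, m, hl, fun p => by simp [hf]⟩
    · right
      refine ⟨σ + σ', α + α', l + l', m + m', by positivity, fun p => ?_⟩
      rw [ContinuousMap.mul_apply, hf, hg, ← Real.exp_add]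
      congr 1; ring
  one_mem' := Or.inl rfl

theorem t_TB1 : S_TB1 := by
  intro i w hw
  obtain ⟨j, k, hij, hik, hjk⟩ : ∃ j k : Fin 3, i ≠ j ∧ i ≠ k ∧ j ≠ k := by
    clear hw w
    revert i
    decide
  have hcov : ∀ m : Fin 3, m = i ∨ m = j ∨ m = k := by
    intro m
    omega
  suffices h : Good i w from h
  refine good_of_near fun R η hη => ?_
  have : CompactSpace ↥(Icc (0:ℝ) 1 ×ˢ closedBall (0 : E 3) R) :=
    isCompact_iff_compactSpace.1 (isCompact_Icc.prod (isCompact_closedBall _ _))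
  let A : Subalgebra ℝ C(↥(Icc (0:ℝ) 1 ×ˢ closedBall (0 : E 3) R), ℝ) :=
    Algebra.adjoin ℝ (Ex i j k R : Set C(↥(Icc (0:ℝ) 1 ×ˢ closedBall (0 : E 3) R), ℝ))
  have hcoord : ∀ m : Fin 3, Continuous fun p : ℝ × E 3 => p.2 m := fun m => by fun_prop
  -- all elements of the algebra extend to good functions
  have hA : ∀ f ∈ A, ∀ a : ℝ, ∃ w' : ℝ × E 3 → ℝ, Continuous w' ∧ Good i w' ∧
      ∀ p, a * f p = w' p.1 := by
    intro f hf
    have hf' : f ∈ Submodule.span ℝ
        (Ex i j k R : Set C(↥(Icc (0:ℝ) 1 ×ˢ closedBall (0 : E 3) R), ℝ)) := by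
      have h1 : f ∈ Subalgebra.toSubmodule A := hf
      rw [show Subalgebra.toSubmodule A = _ from Algebra.adjoin_eq_span ℝ _,
        Submonoid.closure_eq] at h1
      exact h1
    clear hf
    induction hf' using Submodule.span_induction with
    | mem f hf =>
      intro a
      rcases hf with rfl | ⟨σ, α, l, m, hl, hf⟩
      · refine ⟨_, ?_, good_ridge hij hik hjk a 0 0 0 0, fun p => by simp⟩
        have := hcoord i
        have := hcoord j
        have := hcoord k
        fun_prop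
      · refine ⟨_, ?_, good_ridge hij hik hjk a σ α l (m / l), fun p => ?_⟩
        · have := hcoord i
          have := hcoord j
          have := hcoord k
          fun_prop
        · rw [hf]
          congr 2
          field_simp
          ring
    | zero =>
      intro a
      refine ⟨_, ?_, good_ridge hij hik hjk 0 0 0 0 0, fun p => by simp⟩
      have := hcoord i
      have := hcoord j
      have := hcoord k
      fun_prop
    | add f g _ _ hf hg =>
      intro a
      obtain ⟨u, cu, gu, hu⟩ := hf a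
      obtain ⟨v, cv, gv, hv⟩ := hg a
      exact ⟨fun p => u p + v p, cu.add cv, good_add gu cu gv cv, fun p => by
        rw [ContinuousMap.add_apply, mul_add, hu, hv]⟩
    | smul b f _ hf =>
      intro a
      obtain ⟨u, cu, gu, hu⟩ := hf (a * b)
      exact ⟨u, cu, gu, fun p => by
        rw [← hu, ContinuousMap.smul_apply, smul_eq_mul]; ring⟩
  have hsep : A.SeparatesPoints := by
    intro p q hpq
    by_contra hcon
    push Not at hcon
    have key : ∀ σ α l m : ℝ, 0 < l →
        σ * p.1.1 + α * p.1.2 i + l * p.1.2 j + m * p.1.2 k =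
        σ * q.1.1 + α * q.1.2 i + l * q.1.2 j + m * q.1.2 k := by
      intro σ α l m hl
      let f : C(↥(Icc (0:ℝ) 1 ×ˢ closedBall (0 : E 3) R), ℝ) :=
        ⟨fun p => Real.exp (σ * p.1.1 + α * p.1.2 i + l * p.1.2 j + m * p.1.2 k), by
          have := (hcoord i).comp
            (continuous_subtype_val (p := fun x => x ∈ (Icc (0:ℝ) 1 ×ˢ closedBall (0 : E 3) R)))
          have := (hcoord j).comp
            (continuous_subtype_val (p := fun x => x ∈ (Icc (0:ℝ) 1 ×ˢ closedBall (0 : E 3) R)))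
          have := (hcoord k).comp
            (continuous_subtype_val (p := fun x => x ∈ (Icc (0:ℝ) 1 ×ˢ closedBall (0 : E 3) R)))
          fun_prop⟩
      have hf : f ∈ A := Algebra.subset_adjoin (Or.inr ⟨σ, α, l, m, hl, fun p => rfl⟩)
      have := hcon f ⟨f, hf, rfl⟩
      exact Real.exp_injective this
    have kj := key 0 0 1 0 one_pos
    have ki := key 0 1 1 0 one_pos
    have kk := key 0 0 1 1 one_pos
    have ks := key 1 0 1 0 one_pos
    simp only [zero_mul, one_mul, zero_add, add_zero] at kj ki kk ks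
    apply hpq
    apply Subtype.ext
    apply Prod.ext
    · linarith
    · ext m
      rcases hcov m with rfl | rfl | rfl
      · linarith
      · linarith
      · linarith
  obtain ⟨⟨g, hg⟩, hgn⟩ :=
    ContinuousMap.exists_mem_subalgebra_near_continuousMap_of_separatesPoints A hsep
      ⟨fun p => w p.1, hw.comp continuous_subtype_val⟩ η hη
  obtain ⟨w', -, gw', hw'⟩ := hA g hg 1
  refine ⟨w', gw', fun s x hs0 hs1 hx => ?_⟩
  have hp : (s, x) ∈ (Icc (0:ℝ) 1 ×ˢ closedBall (0 : E 3) R) := ⟨⟨hs0, hs1⟩, by simpa using hx⟩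
  have h1 := hw' ⟨(s, x), hp⟩
  rw [one_mul] at h1
  have h2 := ContinuousMap.norm_coe_le_norm
    (g - (⟨fun p => w p.1, hw.comp continuous_subtype_val⟩ :
      C(↥(Icc (0:ℝ) 1 ×ˢ closedBall (0 : E 3) R), ℝ))) ⟨(s, x), hp⟩
  rw [ContinuousMap.sub_apply, Real.norm_eq_abs, h1] at h2
  exact h2.trans hgn.le

end Pool.Agent.U171.TA
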